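import Pool.Agent.W979.TE.Defs

set_option autoImplicit false

open Classical

namespace Pool.Agent.W312.TE

open Pool.Agent.W979.TE

lemma span_sup_le {R α : Type} [CommRing R] (I : Ideal R) (s : Set α) (f g : α → R)
    (h : ∀ a ∈ s, f a - g a ∈ I) : Ideal.span (f '' s) ≤ Ideal.span (g '' s) ⊔ I := by
  rw [Ideal.span_le]
  rintro _ ⟨a, ha, rfl⟩
  have h1 : g a + (f a - g a) ∈ Ideal.span (g '' s) ⊔ I :=
    Ideal.add_mem _ (Ideal.mem_sup_left (Ideal.subset_span ⟨a, ha, rfl⟩))
      (Ideal.mem_sup_right (h a ha))
  simpa using h1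

lemma NN_pos (n L : ℕ) : ∀ j, 1 ≤ NN n L j
  | 0 => le_refl _
  | j + 1 => by
    have h := NN_pos n L j
    show 1 ≤ NN n L j * ((NN n L j) ^ n * L + 1)
    nlinarith [Nat.zero_le ((NN n L j) ^ n * L)]

lemma NN_mono (n L : ℕ) : Monotone (NN n L) := by
  refine monotone_nat_of_le_succ fun j => ?_
  show NN n L j ≤ NN n L j * ((NN n L j) ^ n * L + 1)
  nlinarith [Nat.zero_le ((NN n L j) ^ n * L), NN_pos n L j,
    Nat.zero_le (NN n L j * ((NN n L j) ^ n * L))]

lemma exists_ext {F ι : Type} [Field F] (i : ι) {M K : ℕ} (h : M ≤ K) :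
    ∃ e : (Fin M → F) → (Fin K → F), ∀ lam, lamP i (e lam) = lamP i lam := by
  obtain ⟨r, rfl⟩ := Nat.exists_eq_add_of_le h
  refine ⟨fun lam => Fin.append lam (fun _ => 0), fun lam => ?_⟩
  simp [lamP, Fin.sum_univ_add]

/-- partial certificate -/
def Q {F ι : Type} [Field F] (n L K : ℕ) (g : ι → MvPolynomial ι F) (J : Finset ι) : Prop :=
  MvPolynomial.idealOfVars ι F ^ (NN n L J.card) ≤
    Ideal.span (g '' (J : Set ι)) ⊔ Ideal.span (MvPolynomial.X '' {i : ι | i ∉ J}) ⊔
      MvPolynomial.idealOfVars ι F ^ (K + 1)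

lemma Q_congr {F ι : Type} [Field F] (n L K : ℕ) (g g' : ι → MvPolynomial ι F) (J : Finset ι)
    (h : ∀ j ∈ J, g j - g' j ∈ MvPolynomial.idealOfVars ι F ^ (K + 1)) (hQ : Q n L K g J) :
    Q n L K g' J := by
  refine le_trans hQ ?_
  have h1 := span_sup_le (MvPolynomial.idealOfVars ι F ^ (K + 1)) (J : Set ι) g g'
    (fun a ha => h a (by simpa using ha))
  refine sup_le (sup_le (h1.trans ?_) ?_) le_sup_right
  · exact sup_le (le_trans le_sup_left le_sup_left) le_sup_right
  · exact le_trans le_sup_right le_sup_left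

lemma Q_empty {F ι : Type} [Field F] (n L K : ℕ) (g : ι → MvPolynomial ι F) :
    Q n L K g ∅ := by
  unfold Q
  simp only [Finset.card_empty]
  have h0 : NN n L 0 = 1 := rfl
  rw [h0, pow_one]
  refine le_trans ?_ (le_trans le_sup_right le_sup_left)
  unfold MvPolynomial.idealOfVars
  apply Ideal.span_mono
  rintro _ ⟨i, rfl⟩
  exact ⟨i, by simp, rfl⟩

lemma Q_univ {F ι : Type} [Field F] [Fintype ι] (L K : ℕ) (g : ι → MvPolynomial ι F)
    (hK : K = NN (Fintype.card ι) L (Fintype.card ι))
    (hQ : Q (Fintype.card ι) L K g Finset.univ) :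
    MvPolynomial.idealOfVars ι F ^ K ≤
      Ideal.span (Set.range g) ⊔ MvPolynomial.idealOfVars ι F ^ (K + 1) := by
  unfold Q at hQ
  rw [Finset.card_univ, ← hK] at hQ
  refine hQ.trans ?_
  refine sup_le (sup_le ?_ ?_) le_sup_right
  · refine le_trans ?_ le_sup_left
    apply Ideal.span_mono
    rintro _ ⟨i, -, rfl⟩
    exact ⟨i, rfl⟩
  · have : {i : ι | i ∉ (Finset.univ : Finset ι)} = ∅ := by
      ext i; simp
    rw [this]
    simp

/-- elimination step for a fixed family -/
lemma step (hEL : S_EL) {F ι : Type} [Field F] [Fintype F] [Fintype ι] (L K : ℕ)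
    (hK : K = NN (Fintype.card ι) L (Fintype.card ι)) (J : Finset ι) (i : ι) (hi : i ∉ J)
    (g : ι → MvPolynomial ι F) (hQ : Q (Fintype.card ι) L K g J) (N M : ℕ)
    (hN : N = NN (Fintype.card ι) L J.card) (hM : M = N ^ Fintype.card ι * L)
    (G' : (Fin M → F) → ι → MvPolynomial ι F)
    (h1 : ∀ lam, ∀ j ∈ J, G' lam j - g j ∈ MvPolynomial.idealOfVars ι F ^ (K + 1))
    (h2 : ∀ lam, G' lam i - g i - lamP i lam ∈ MvPolynomial.idealOfVars ι F ^ (K + 1)) :
    (Finset.univ.filter (fun lam : Fin M → F =>
      ¬ Q (Fintype.card ι) L K (G' lam) (insert i J))).card * Fintype.card F ^ L ≤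
      N ^ Fintype.card ι * Fintype.card F ^ M := by
  subst hM
  have hcard : (insert i J).card = J.card + 1 := Finset.card_insert_of_notMem hi
  have hle : J.card + 1 ≤ Fintype.card ι := by
    rw [← hcard]; exact Finset.card_le_univ _
  have hNN : N * (N ^ Fintype.card ι * L + 1) = NN (Fintype.card ι) L (J.card + 1) := by
    rw [hN]; rfl
  have hKle : N * (N ^ Fintype.card ι * L + 1) ≤ K := by
    rw [hNN, hK]; exact NN_mono _ _ hle
  have hN1 : 1 ≤ N := by rw [hN]; exact NN_pos _ _ _
  set A : Ideal (MvPolynomial ι F) :=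
    Ideal.span (g '' (J : Set ι)) ⊔ Ideal.span (MvPolynomial.X '' {k : ι | k ∉ insert i J})
    with hA
  have hhyp : MvPolynomial.idealOfVars ι F ^ N ≤
      A ⊔ Ideal.span {MvPolynomial.X i} ⊔ MvPolynomial.idealOfVars ι F ^ (K + 1) := by
    have hQ' := hQ
    unfold Q at hQ'
    rw [← hN] at hQ'
    refine hQ'.trans ?_
    refine sup_le (sup_le ?_ ?_) le_sup_right
    · exact le_trans le_sup_left (le_trans le_sup_left le_sup_left)
    · rw [Ideal.span_le]
      rintro _ ⟨k, hk, rfl⟩
      by_cases hki : k = i
      · subst hki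
        exact Ideal.mem_sup_left (Ideal.mem_sup_right (Ideal.subset_span rfl))
      · refine Ideal.mem_sup_left (Ideal.mem_sup_left (Ideal.mem_sup_right
          (Ideal.subset_span ⟨k, ?_, rfl⟩)))
        simp only [Set.mem_ofPred_eq] at hk ⊢
        simp [hki, hk]
  have key := hEL F ι A i N L K (g i) hN1 hKle hhyp
  refine le_trans (Nat.mul_le_mul_right _ (Finset.card_le_card ?_)) key
  intro lam hlam
  simp only [Finset.mem_filter, Finset.mem_univ, true_and] at hlam ⊢
  intro hc
  apply hlam
  unfold Q
  rw [hcard, ← hNN]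
  refine hc.trans ?_
  set m := MvPolynomial.idealOfVars ι F ^ (K + 1) with hm
  set B := Ideal.span (G' lam '' ((insert i J : Finset ι) : Set ι)) ⊔
    Ideal.span (MvPolynomial.X '' {k : ι | k ∉ insert i J}) ⊔ m with hB
  refine sup_le (sup_le (sup_le ?_ ?_) ?_) le_sup_right
  · rw [Ideal.span_le]
    rintro _ ⟨j, hj, rfl⟩
    have hj' : j ∈ J := by simpa using hj
    have e1 : G' lam j ∈ B := by
      refine Ideal.mem_sup_left (Ideal.mem_sup_left (Ideal.subset_span ⟨j, ?_, rfl⟩))
      simp [hj']
    have e2 : G' lam j - g j ∈ B := Ideal.mem_sup_right (h1 lam j hj')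
    have e3 := Ideal.sub_mem _ e1 e2
    simpa using e3
  · exact le_trans le_sup_right le_sup_left
  · rw [Ideal.span_singleton_le_iff_mem]
    have e1 : G' lam i ∈ B := by
      refine Ideal.mem_sup_left (Ideal.mem_sup_left (Ideal.subset_span ⟨i, ?_, rfl⟩))
      simp
    have e2 : G' lam i - g i - lamP i lam ∈ B := Ideal.mem_sup_right (h2 lam)
    have e3 := Ideal.sub_mem _ e1 e2
    have e4 : G' lam i - (G' lam i - g i - lamP i lam) = g i + lamP i lam := by ring
    rwa [e4] at e3

/-- double counting -/
lemma double_count {Ω Λ : Type} [Fintype Ω] [Fintype Λ] (P : Ω → Prop) [DecidablePred P]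
    (σ : Λ → (Ω ≃ Ω))
    (c B : ℕ) (hB : ∀ ω, (Finset.univ.filter (fun l : Λ => P (σ l ω))).card * c ≤ B) :
    (Finset.univ.filter (fun ω : Ω => P ω)).card * c * Fintype.card Λ ≤ Fintype.card Ω * B := by
  have h1 : ∑ ω : Ω, (Finset.univ.filter (fun l : Λ => P (σ l ω))).card =
      Fintype.card Λ * (Finset.univ.filter (fun ω : Ω => P ω)).card := by
    simp only [Finset.card_filter]
    rw [Finset.sum_comm]
    have : ∀ l : Λ, (∑ ω : Ω, if P (σ l ω) then 1 else 0) = ∑ ω : Ω, if P ω then 1 else 0 :=
      fun l => Equiv.sum_comp (σ l) (fun ω => if P ω then 1 else 0)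
    rw [Finset.sum_congr rfl (fun l _ => this l)]
    rw [Finset.sum_const, Finset.card_univ, smul_eq_mul]
  calc (Finset.univ.filter (fun ω : Ω => P ω)).card * c * Fintype.card Λ
      = (∑ ω : Ω, (Finset.univ.filter (fun l : Λ => P (σ l ω))).card) * c := by
        rw [h1]; ring
    _ = ∑ ω : Ω, (Finset.univ.filter (fun l : Λ => P (σ l ω))).card * c := Finset.sum_mul ..
    _ ≤ ∑ _ω : Ω, B := Finset.sum_le_sum fun ω _ => hB ω
    _ = Fintype.card Ω * B := by rw [Finset.sum_const, Finset.card_univ, smul_eq_mul]

theorem seq (hEL : S_EL) : S_SEQ := by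
  intro F ι Ω _ _ _ _ L K G pert hK hpert
  set n := Fintype.card ι with hn
  have hq : 0 < Fintype.card F := Fintype.card_pos
  have claim : ∀ J : Finset ι,
      (Finset.univ.filter (fun ω : Ω => ¬ Q n L K (G ω) J)).card * Fintype.card F ^ L ≤
        J.card * K ^ n * Fintype.card Ω := by
    intro J
    induction J using Finset.induction with
    | empty =>
      have : (Finset.univ.filter (fun ω : Ω => ¬ Q n L K (G ω) ∅)) = ∅ := by
        apply Finset.filter_eq_empty_iff.2
        intro ω _
        simp only [not_not]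
        exact Q_empty n L K (G ω)
      rw [this]; simp
    | insert i J hi ih =>
      obtain ⟨N, hN⟩ : ∃ N, N = NN n L J.card := ⟨_, rfl⟩
      obtain ⟨M, hM⟩ : ∃ M, M = N ^ n * L := ⟨_, rfl⟩
      have hcard : (insert i J).card = J.card + 1 := Finset.card_insert_of_notMem hi
      have hle : J.card + 1 ≤ n := by
        rw [← hcard]; exact Finset.card_le_univ _
      have hNN : N * (M + 1) = NN n L (J.card + 1) := by
        rw [hM, hN]; rfl
      have hKle : N * (M + 1) ≤ K := by
        rw [hNN, hK]; exact NN_mono _ _ hle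
      have hN1 : 1 ≤ N := by rw [hN]; exact NN_pos _ _ _
      have hMK : M ≤ K := by nlinarith
      have hNK : N ≤ K := by nlinarith [Nat.zero_le (N * M)]
      obtain ⟨e, he⟩ := exists_ext (F := F) i hMK
      -- the bad set
      have hbad : (Finset.univ.filter (fun ω : Ω => Q n L K (G ω) J ∧
          ¬ Q n L K (G ω) (insert i J))).card * Fintype.card F ^ L *
            Fintype.card (Fin M → F) ≤
          Fintype.card Ω * (N ^ n * Fintype.card F ^ M) := by
        refine double_count (fun ω : Ω => Q n L K (G ω) J ∧ ¬ Q n L K (G ω) (insert i J))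
          (fun lam : Fin M → F => pert i (e lam)) _ _ ?_
        intro ω
        by_cases hω : Q n L K (G ω) J
        · have hs := step hEL L K hK J i hi (G ω) hω N M hN hM
            (fun lam => G (pert i (e lam) ω))
            (by
              intro lam j hj
              have hji : j ≠ i := fun h => hi (h ▸ hj)
              have := hpert i (e lam) ω j
              rw [if_neg hji, sub_zero] at this
              exact this)
            (by
              intro lam
              have := hpert i (e lam) ω i
              rw [if_pos rfl, he lam] at this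
              exact this)
          refine le_trans (Nat.mul_le_mul_right _ (Finset.card_le_card ?_)) hs
          intro lam hlam
          simp only [Finset.mem_filter, Finset.mem_univ, true_and] at hlam ⊢
          exact hlam.2
        · have : (Finset.univ.filter (fun lam : Fin M → F =>
              Q n L K (G (pert i (e lam) ω)) J ∧
                ¬ Q n L K (G (pert i (e lam) ω)) (insert i J))) = ∅ := by
            apply Finset.filter_eq_empty_iff.2
            rintro lam - ⟨h1, -⟩
            apply hω
            refine Q_congr n L K _ _ J ?_ h1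
            intro j hj
            have hji : j ≠ i := fun h => hi (h ▸ hj)
            have := hpert i (e lam) ω j
            rw [if_neg hji, sub_zero] at this
            exact this
          rw [this]; simp
      have hbad2 : (Finset.univ.filter (fun ω : Ω => Q n L K (G ω) J ∧
          ¬ Q n L K (G ω) (insert i J))).card * Fintype.card F ^ L ≤
          K ^ n * Fintype.card Ω := by
        have hc : Fintype.card (Fin M → F) = Fintype.card F ^ M := by simp
        rw [hc] at hbad
        have hpos : 0 < Fintype.card F ^ M := pow_pos hq M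
        have h3 : (Finset.univ.filter (fun ω : Ω => Q n L K (G ω) J ∧
          ¬ Q n L K (G ω) (insert i J))).card * Fintype.card F ^ L * Fintype.card F ^ M ≤
          (N ^ n * Fintype.card Ω) * Fintype.card F ^ M := by
          calc _ ≤ _ := hbad
            _ = _ := by ring
        have h4 := Nat.le_of_mul_le_mul_right h3 hpos
        refine h4.trans (Nat.mul_le_mul_right _ (Nat.pow_le_pow_left hNK n))
      have hsub : (Finset.univ.filter (fun ω : Ω => ¬ Q n L K (G ω) (insert i J))).card ≤
          (Finset.univ.filter (fun ω : Ω => ¬ Q n L K (G ω) J)).card +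
          (Finset.univ.filter (fun ω : Ω => Q n L K (G ω) J ∧
            ¬ Q n L K (G ω) (insert i J))).card := by
        refine le_trans (Finset.card_le_card ?_) (Finset.card_union_le _ _)
        intro ω hω
        simp only [Finset.mem_union, Finset.mem_filter, Finset.mem_univ, true_and] at hω ⊢
        by_cases h : Q n L K (G ω) J
        · exact Or.inr ⟨h, hω⟩
        · exact Or.inl h
      calc _ ≤ ((Finset.univ.filter (fun ω : Ω => ¬ Q n L K (G ω) J)).card +
          (Finset.univ.filter (fun ω : Ω => Q n L K (G ω) J ∧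
            ¬ Q n L K (G ω) (insert i J))).card) * Fintype.card F ^ L :=
            Nat.mul_le_mul_right _ hsub
        _ = (Finset.univ.filter (fun ω : Ω => ¬ Q n L K (G ω) J)).card * Fintype.card F ^ L +
          (Finset.univ.filter (fun ω : Ω => Q n L K (G ω) J ∧
            ¬ Q n L K (G ω) (insert i J))).card * Fintype.card F ^ L := by ring
        _ ≤ J.card * K ^ n * Fintype.card Ω + K ^ n * Fintype.card Ω := add_le_add ih hbad2
        _ = (insert i J).card * K ^ n * Fintype.card Ω := by rw [hcard]; ring
  have hfin := claim Finset.univ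
  rw [Finset.card_univ, ← hn] at hfin
  refine le_trans (Nat.mul_le_mul_right _ (Finset.card_le_card ?_)) hfin
  intro ω hω
  simp only [Finset.mem_filter, Finset.mem_univ, true_and] at hω ⊢
  intro h
  exact hω (Q_univ L K (G ω) hK h)

end Pool.Agent.W312.TE
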